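import Pool.Agent.H605.Fix.Short
import Pool.Agent.H605.Fix.Multiples
import Pool.Agent.H605.Fix.RealSets2
import Pool.Agent.H605.Fix.Proj2
import Pool.Agent.H605.FixT.RealN

/-!
# The arithmetic Kakeya conjecture as a statement on multiples and on residue classes

Q1 of MP_4b405e_nt (exactly the frozen statement `S16849`) and Q1 of MP_169869_co (exactly the
frozen statement `S07345`) are equivalent to a statement on the number of multiples of the elements
of a finite set `A` in an interval of length `k max A`, and to a statement on the number of integers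
of `[1, k x]` covered by one residue class for each prime of `[x, 2x)`.

More generally, for every exponent `0 < θ ≤ 1`, the lower bound `n θ` for the Minkowski dimension of
the sets in `ℝ^n` in the limit of long progressions (for all `n`, or for one `n ≥ 1`), the exponent
`1 / θ` in the projection form and the exponents `θ` for progressions, multiples and residue classes
are equivalent.  So the limit of `f_n^M(k)` is `n` times the limit of `f_1^M(k)`, for every `n`.
-/

set_option autoImplicit false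

open Finset

namespace Pool.Agent.Results.MP_4b405e_nt.MultiplesAndResidues

/-- Q1 of MP_4b405e_nt: the body of the frozen statement `S16849`. -/
def ArithmeticKakeya : Prop :=
  ∀ n : ℕ, ∀ ε : ℝ, 0 < ε → ∃ k : ℕ,
    ∀ B : Set (EuclideanSpace ℝ (Fin n)),
      (∀ d : EuclideanSpace ℝ (Fin n), (∀ i, d i ∈ Set.Icc (0:ℝ) 1) →
        ∃ a : EuclideanSpace ℝ (Fin n), ∀ j : ℕ, j < k → a + (j : ℝ) • d ∈ B) →
      ∀ δ₀ : ℝ, 0 < δ₀ → ∃ δ : ℝ, 0 < δ ∧ δ < δ₀ ∧
        ∀ S : Finset (EuclideanSpace ℝ (Fin n)),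
          B ⊆ (⋃ x ∈ S, Metric.ball x δ) →
          δ ^ (-((n : ℝ) - ε)) ≤ (S.card : ℝ)

/-- Q1 of MP_169869_co (the projection form): the body of the frozen statement `S07345`. -/
def ProjectionForm : Prop :=
  ∀ ε : ℝ, 0 < ε →
    ∃ S : Finset ℚ, (-1 : ℚ) ∉ S ∧
      ∀ A : Finset (ℤ × ℤ),
        ((A.image (fun p : ℤ × ℤ => (p.1 : ℚ) + (-1) * (p.2 : ℚ))).card : ℝ) ≤
          (max ((A.image (fun p : ℤ × ℤ => (p.2 : ℚ))).card : ℝ)
              ((S.sup (fun r : ℚ =>
                  (A.image (fun p : ℤ × ℤ => (p.1 : ℚ) + r * (p.2 : ℚ))).card) : ℕ) : ℝ))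
            ^ (1 + ε)

/-- The lower bound `n θ` for the (upper) Minkowski dimension in the limit `k → ∞`, for sets in
`ℝ^n`: for every `ε > 0` there is `k` such that every set which contains a `k`-term progression with
every common difference in `[0, 1]^n` has upper Minkowski dimension at least `n θ - ε` (in the form
of the frozen statement `S16849`, which is the case `θ = 1` for all `n`). -/
def MinkowskiBound (n : ℕ) (θ : ℝ) : Prop :=
  ∀ ε : ℝ, 0 < ε → ∃ k : ℕ,
    ∀ B : Set (EuclideanSpace ℝ (Fin n)),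
      (∀ d : EuclideanSpace ℝ (Fin n), (∀ i, d i ∈ Set.Icc (0:ℝ) 1) →
        ∃ a : EuclideanSpace ℝ (Fin n), ∀ j : ℕ, j < k → a + (j : ℝ) • d ∈ B) →
      ∀ δ₀ : ℝ, 0 < δ₀ → ∃ δ : ℝ, 0 < δ ∧ δ < δ₀ ∧
        ∀ S : Finset (EuclideanSpace ℝ (Fin n)),
          B ⊆ (⋃ x ∈ S, Metric.ball x δ) →
          δ ^ (-((n : ℝ) * θ - ε)) ≤ (S.card : ℝ)

/-- The projection form with the exponent `1 / θ + ε` in place of `1 + ε`. -/
def ProjectionBound (θ : ℝ) : Prop :=
  ∀ ε : ℝ, 0 < ε →
    ∃ S : Finset ℚ, (-1 : ℚ) ∉ S ∧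
      ∀ A : Finset (ℤ × ℤ),
        ((A.image (fun p : ℤ × ℤ => (p.1 : ℚ) + (-1) * (p.2 : ℚ))).card : ℝ) ≤
          (max ((A.image (fun p : ℤ × ℤ => (p.2 : ℚ))).card : ℝ)
              ((S.sup (fun r : ℚ =>
                  (A.image (fun p : ℤ × ℤ => (p.1 : ℚ) + r * (p.2 : ℚ))).card) : ℕ) : ℝ))
            ^ (1 / θ + ε)

/-- A finite set of integers containing a `k`-term progression (`k = k(ε)`) with each common
difference `d ∈ D` has at least `|D|^(θ-ε)` elements. -/
def ProgressionForm (θ : ℝ) : Prop :=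
  ∀ ε : ℝ, 0 < ε → ∃ k : ℕ, ∀ D E : Finset ℤ, D.Nonempty →
    (∀ d ∈ D, ∃ a : ℤ, ∀ j : ℕ, j < k → a + j * d ∈ E) → (D.card : ℝ) ^ (θ - ε) ≤ (E.card : ℝ)

/-- Multiples in intervals of bounded ratio: for every `ε > 0` there is `k` such that, for every
finite nonempty set `A` of positive integers and every `x`, the interval `(x, x + k max A]` contains
at least `|A|^(θ-ε)` integers divisible by some element of `A`. -/
def MultiplesForm (θ : ℝ) : Prop :=
  ∀ ε : ℝ, 0 < ε → ∃ k : ℕ, ∀ A : Finset ℕ, A.Nonempty → (∀ a ∈ A, 1 ≤ a) → ∀ x : ℕ,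
    (A.card : ℝ) ^ (θ - ε) ≤
      (((Ioc x (x + k * A.sup id)).filter fun y => ∃ a ∈ A, a ∣ y).card : ℝ)

/-- Residue classes for the primes of `[x, 2x)` in the interval `[1, k x]`: for every `ε > 0` there
are `k` and `x₀` such that for all `x ≥ x₀` and all choices of a residue class `a p` modulo `p`, at
least `x^(θ-ε)` integers of `[1, k x]` lie in `a p` for some prime `p ∈ [x, 2x)`. -/
def ResidueForm (θ : ℝ) : Prop :=
  ∀ ε : ℝ, 0 < ε → ∃ k : ℕ, ∃ x₀ : ℕ, ∀ x : ℕ, x₀ ≤ x → ∀ a : (p : ℕ) → ZMod p,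
    (x : ℝ) ^ (θ - ε) ≤ (Set.ncard {n : ℕ | 1 ≤ n ∧ n ≤ k * x ∧
      ∃ p : ℕ, p.Prime ∧ x ≤ p ∧ p < 2 * x ∧ (n : ZMod p) = a p} : ℝ)

/-- (a) The five statements (with the exponent `θ = 1`) are equivalent.
(b) The same with every exponent `0 < θ ≤ 1`; one dimension `n ≥ 1` suffices. -/
theorem result :
    List.TFAE [
      ArithmeticKakeya,
      ProjectionForm,
      ProgressionForm 1,
      MultiplesForm 1,
      ResidueForm 1] ∧
    ∀ θ : ℝ, 0 < θ → θ ≤ 1 →
      List.TFAE [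
        ∀ n : ℕ, MinkowskiBound n θ,
        ∃ n : ℕ, 1 ≤ n ∧ MinkowskiBound n θ,
        ProjectionBound θ,
        ProgressionForm θ,
        MultiplesForm θ,
        ResidueForm θ] := by
  refine ⟨?_, fun θ h0 h1 => ?_⟩
  · have hs : Pool.Agent.H605.Fix.AllSets → Pool.Agent.H605.Fix.FixedSets := fun h =>
      Pool.Agent.H605.Fix.sets_of_multiples (Pool.Agent.H605.Fix.multiples_of_allSets h)
    tfae_have 1 → 3 := fun h => Pool.Agent.H605.Fix.allSets_of_sets
      (Pool.Agent.H605.Fix.sets_of_full (Pool.Agent.H605.Fix.full_of_real h))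
    tfae_have 3 → 1 := fun h => Pool.Agent.H605.Fix.real_of_sets (hs h)
    tfae_have 2 → 3 := fun h => Pool.Agent.H605.Fix.allSets_of_proj h
    tfae_have 3 → 2 := fun h => Pool.Agent.H605.Fix.proj_of_allSets h
    tfae_have 3 → 4 := fun h => Pool.Agent.H605.Fix.multiples_of_allSets h
    tfae_have 4 → 3 := fun h => Pool.Agent.H605.Fix.allSets_of_sets
      (Pool.Agent.H605.Fix.sets_of_multiples h)
    tfae_have 3 → 5 := fun h => Pool.Agent.H605.Fix.short_of_sets (hs h)
    tfae_have 5 → 3 := fun h => Pool.Agent.H605.Fix.allSets_of_sets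
      (Pool.Agent.H605.Fix.sets_of_full (Pool.Agent.H605.Fix.full_of_short h))
    tfae_finish
  · have hs : Pool.Agent.H605.FixT.AllT θ → Pool.Agent.H605.FixT.SetsT θ := fun h =>
      Pool.Agent.H605.FixT.setsT_of_multT h1 (Pool.Agent.H605.FixT.multT_of_allT h)
    tfae_have 1 → 2 := fun h => ⟨1, le_rfl, h 1⟩
    tfae_have 2 → 4 := fun ⟨n, hn, h⟩ => Pool.Agent.H605.FixT.allT_of_setsT h0.le h1
      (Pool.Agent.H605.FixT.setsT_of_fullT (Pool.Agent.H605.FixT.fullT_of_realTn hn h1 h))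
    tfae_have 4 → 1 := fun h => Pool.Agent.H605.FixT.realT_of_setsT h0 (hs h)
    tfae_have 3 → 4 := fun h => Pool.Agent.H605.FixT.allT_of_projT h0 h1 h
    tfae_have 4 → 3 := fun h => Pool.Agent.H605.FixT.projT_of_allT h0 h
    tfae_have 4 → 5 := fun h => Pool.Agent.H605.FixT.multT_of_allT h
    tfae_have 5 → 4 := fun h => Pool.Agent.H605.FixT.allT_of_setsT h0.le h1
      (Pool.Agent.H605.FixT.setsT_of_multT h1 h)
    tfae_have 4 → 6 := fun h => Pool.Agent.H605.FixT.shortT_of_setsT h0.le h1 (hs h)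
    tfae_have 6 → 4 := fun h => Pool.Agent.H605.FixT.allT_of_setsT h0.le h1
      (Pool.Agent.H605.FixT.setsT_of_fullT (Pool.Agent.H605.FixT.fullT_of_shortT h0 h1 h))
    tfae_finish

end Pool.Agent.Results.MP_4b405e_nt.MultiplesAndResidues
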