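import Pool.Agent.H248.Port

/-!
# Sets containing short patterns with all common differences

New exponents for progressions with few terms. `f^M_n(4) ≥ 5 n / 9`, `f^M_n(6) ≥ 34 n / 59` and
`f^M_n(k) ≥ 10 n / 17` for all `k ≥ 7`; for the last bound only the five terms
`a, a + 2 r, a + 3 r, a + 4 r, a + 6 r` are needed. The same for the lower Minkowski dimension, for
coverings at every scale and an arbitrary set of common differences, and in the discrete form: if a
finite set `S` of integers contains `a + j d`, `j ∈ J`, for every `d ∈ D` (with `a` depending on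
`d`), then `|S| ≥ |D| ^ (5 / 9)` for `J = {0, 1, 2, 3}`, `|S| ≥ |D| ^ (34 / 59)` for
`J = {0, 1, 2, 3, 4, 5}` and `|S| ≥ |D| ^ (10 / 17)` for `J = {0, 2, 3, 4, 6}`.

The discrete bounds are entropy arguments in the framework of the library files `K3h57/*`: two
copies of a pair of intersecting lines are glued, as conditionally independent copies, over the
span of two of their points (for six terms a second time, over three points); the certificates
`Cert4`, `Cert6`, `Cert7` use 21, 21 and 10 inequalities.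
-/

set_option autoImplicit false

open Filter Topology

namespace Pool.Agent.Results.MP_4b405e_nt.ShortPatterns

/-- `B` contains the pattern `a + j r`, `j ∈ J`, with every common difference `r ∈ R`. -/
def HasPattern {n : ℕ} (J : Finset ℕ) (R B : Set (EuclideanSpace ℝ (Fin n))) : Prop :=
  ∀ r ∈ R, ∃ a : EuclideanSpace ℝ (Fin n), ∀ j ∈ J, a + (j : ℝ) • r ∈ B

/-- The unit cube `[0,1]^n`. -/
def cube (n : ℕ) : Set (EuclideanSpace ℝ (Fin n)) := {r | ∀ i, r i ∈ Set.Icc (0 : ℝ) 1}

/-- The least number of sets of diameter at most `δ` covering `B` (for bounded `B`). -/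
noncomputable def coverNum {n : ℕ} (B : Set (EuclideanSpace ℝ (Fin n))) (δ : ℝ) : ℕ :=
  sInf {N | ∃ U : Fin N → Set (EuclideanSpace ℝ (Fin n)),
    (∀ i, ∀ x ∈ U i, ∀ y ∈ U i, dist x y ≤ δ) ∧ B ⊆ ⋃ i, U i}

/-- Upper Minkowski dimension. -/
noncomputable def upperMinkowski {n : ℕ} (B : Set (EuclideanSpace ℝ (Fin n))) : EReal :=
  limsup (fun δ : ℝ => ((Real.log (coverNum B δ) / Real.log (1 / δ) : ℝ) : EReal)) (𝓝[>] 0)

/-- Lower Minkowski dimension. -/
noncomputable def lowerMinkowski {n : ℕ} (B : Set (EuclideanSpace ℝ (Fin n))) : EReal :=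
  liminf (fun δ : ℝ => ((Real.log (coverNum B δ) / Real.log (1 / δ) : ℝ) : EReal)) (𝓝[>] 0)

/-- `f^M_n(k)`: the infimum of the upper Minkowski dimensions of the bounded sets in `ℝ^n` that
contain a `k`-term progression with every common difference in `[0,1]^n`. -/
noncomputable def fM (n k : ℕ) : EReal :=
  ⨅ (B : Set (EuclideanSpace ℝ (Fin n))) (_ : Bornology.IsBounded B)
    (_ : HasPattern (Finset.range k) (cube n) B), upperMinkowski B

/-- The three patterns with their exponents: four terms in progression, `5 / 9`, six terms in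
progression, `34 / 59`, and the five terms with indices `0, 2, 3, 4, 6`, `10 / 17`. -/
inductive Bound : Finset ℕ → ℝ → Prop
  | four : Bound {0, 1, 2, 3} (5 / 9)
  | six : Bound {0, 1, 2, 3, 4, 5} (34 / 59)
  | five : Bound {0, 2, 3, 4, 6} (10 / 17)

theorem base {J : Finset ℕ} {s : ℝ} (h : Bound J s) :
    ∃ c : ℝ, 0 < c ∧ 1 / c = s ∧ Pool.Agent.H248.Pat J c := by
  cases h with
  | four => exact ⟨9 / 5, by norm_num, by norm_num, Pool.Agent.H248.pat4⟩
  | six => exact ⟨59 / 34, by norm_num, by norm_num, Pool.Agent.H248.pat6⟩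
  | five => exact ⟨17 / 10, by norm_num, by norm_num, Pool.Agent.H248.pat5⟩

theorem rpow_of {c x y : ℝ} (hc : 0 < c) (hx : 0 ≤ x) (hy : 0 ≤ y) (h : x ≤ y ^ c) :
    x ^ (1 / c) ≤ y := by
  refine (Real.rpow_le_rpow hx h (by positivity)).trans ?_
  rw [← Real.rpow_mul hy, mul_one_div_cancel hc.ne', Real.rpow_one]

/-- Boundedness of the quantities of which the limits are taken is not needed: `EReal`. -/
theorem lower_le_upper {n : ℕ} (B : Set (EuclideanSpace ℝ (Fin n))) :
    lowerMinkowski B ≤ upperMinkowski B := liminf_le_limsup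

theorem low {J : Finset ℕ} {s : ℝ} (h : Bound J s) (n : ℕ) (B : Set (EuclideanSpace ℝ (Fin n)))
    (hB : Bornology.IsBounded B) (hP : HasPattern J (cube n) B) :
    (((n : ℝ) * s : ℝ) : EReal) ≤ lowerMinkowski B := by
  obtain ⟨c, hc, hs, hA⟩ := base h
  rw [← hs, mul_one_div]
  exact Pool.Agent.H248.lower hc hA n B hB hP

/-- **Theorem.** -/
theorem result :
    -- progressions of four terms
    (∀ n : ℕ, (((n : ℝ) * (5 / 9) : ℝ) : EReal) ≤ fM n 4) ∧
    -- progressions of at least six terms
    (∀ n k : ℕ, 6 ≤ k → (((n : ℝ) * (34 / 59) : ℝ) : EReal) ≤ fM n k) ∧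
    -- progressions of at least seven terms
    (∀ n k : ℕ, 7 ≤ k → (((n : ℝ) * (10 / 17) : ℝ) : EReal) ≤ fM n k) ∧
    -- the patterns `0, 1, 2, 3` with exponent `s = 5 / 9`, `0, 1, 2, 3, 4, 5` with `s = 34 / 59`
    -- and `0, 2, 3, 4, 6` with `s = 10 / 17`
    ∀ (J : Finset ℕ) (s : ℝ), Bound J s →
      -- a finite set of integers which contains the pattern with every common difference in `D`
      -- has at least `|D| ^ s` elements
      (∀ S D : Finset ℤ, (∀ d ∈ D, ∃ a : ℤ, ∀ j ∈ J, a + (j : ℤ) * d ∈ S) →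
        (D.card : ℝ) ^ s ≤ (S.card : ℝ)) ∧
      -- lower Minkowski dimension
      (∀ (n : ℕ) (B : Set (EuclideanSpace ℝ (Fin n))), Bornology.IsBounded B →
        HasPattern J (cube n) B → (((n : ℝ) * s : ℝ) : EReal) ≤ lowerMinkowski B) ∧
      -- covering numbers at every scale, for an arbitrary set `R` of common differences: `V ⊆ R`
      -- is finite and separated in the maximum norm, `U` is a finite covering of `B`
      ∀ (n : ℕ) (R B : Set (EuclideanSpace ℝ (Fin n))), HasPattern J R B →
        ∀ δ : ℝ, 0 < δ → ∀ V : Finset (EuclideanSpace ℝ (Fin n)), (∀ v ∈ V, v ∈ R) →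
        (∀ v ∈ V, ∀ w ∈ V, v ≠ w → ∃ i, δ ≤ |v i - w i|) →
        ∀ (ι : Type) [Fintype ι] (U : ι → Set (EuclideanSpace ℝ (Fin n))),
        (∀ i, ∀ x ∈ U i, ∀ y ∈ U i, dist x y ≤ δ) → B ⊆ ⋃ i, U i →
        (V.card : ℝ) ^ s ≤ (21 : ℝ) ^ n * (Fintype.card ι : ℝ) := by
  classical
  refine ⟨?_, ?_, ?_, ?_⟩
  · intro n
    unfold fM
    refine le_iInf fun B => le_iInf fun hB => le_iInf fun hP => ?_
    refine (low Bound.four n B hB ?_).trans (lower_le_upper B)
    intro r hr
    obtain ⟨a, ha⟩ := hP r hr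
    refine ⟨a, fun j hj => ha j ?_⟩
    revert j
    decide
  · intro n k hk
    unfold fM
    refine le_iInf fun B => le_iInf fun hB => le_iInf fun hP => ?_
    refine (low Bound.six n B hB ?_).trans (lower_le_upper B)
    intro r hr
    obtain ⟨a, ha⟩ := hP r hr
    refine ⟨a, fun j hj => ha j (Finset.mem_range.2 (lt_of_lt_of_le ?_ hk))⟩
    revert j
    decide
  · intro n k hk
    unfold fM
    refine le_iInf fun B => le_iInf fun hB => le_iInf fun hP => ?_
    refine (low Bound.five n B hB ?_).trans (lower_le_upper B)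
    intro r hr
    obtain ⟨a, ha⟩ := hP r hr
    refine ⟨a, fun j hj => ha j (Finset.mem_range.2 (lt_of_lt_of_le ?_ hk))⟩
    revert j
    decide
  · intro J s hJ
    obtain ⟨c, hc, hs, hA⟩ := base hJ
    refine ⟨?_, fun n B hB hP => low hJ n B hB hP, ?_⟩
    · intro S D hD
      have hex : ∀ d : ℤ, ∃ a : ℤ, d ∈ D → ∀ j ∈ J, a + (j : ℤ) * d ∈ S := by
        intro d
        by_cases hd : d ∈ D
        · obtain ⟨a, ha⟩ := hD d hd
          exact ⟨a, fun _ => ha⟩
        · exact ⟨0, fun h => absurd h hd⟩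
      choose a ha using hex
      have h1 := hA (D.image fun d => (a d, d)) S
        (by
          intro z hz w hw hzw
          obtain ⟨d, -, rfl⟩ := Finset.mem_image.1 (Finset.mem_coe.1 hz)
          obtain ⟨e, -, rfl⟩ := Finset.mem_image.1 (Finset.mem_coe.1 hw)
          have : d = e := hzw
          rw [this])
        (by
          intro z hz i hi
          obtain ⟨d, hd, rfl⟩ := Finset.mem_image.1 hz
          exact ha d hd i hi)
      rw [Finset.card_image_of_injective _ (fun d e h => congrArg Prod.snd h)] at h1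
      rw [← hs]
      exact rpow_of hc (Nat.cast_nonneg _) (Nat.cast_nonneg _) h1
    · intro n R B hP δ hδ V hV hsep ι _ U hU hcov
      have hk : ∀ j ∈ J, j < 7 := by
        cases hJ <;> decide
      have h1 := Pool.Agent.H248.gen hk hA hc.le R B hP hδ V hV hsep U hU hcov
      have h2 := rpow_of hc (Nat.cast_nonneg _) (by positivity) h1
      rw [← hs]
      refine h2.trans (le_of_eq ?_)
      norm_num

end Pool.Agent.Results.MP_4b405e_nt.ShortPatterns
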