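import Pool.Agent.H545.AP3
import Pool.Graph.R_pool_sql_team_seeded_5cf16337.K3h53.AP.Port

/-!
# Progressions with three terms: `f^M_n(3) ≥ 67 n / 122`

The bounds for three terms: `6 n / 11` follows from the theorem of Katz and Tao (1999) on sums and
differences along three slopes (exponent `11 / 6`), which was not improved in print; the starting
files have `45 n / 82`.  Here the exponent is `122 / 67 = 1.82089…` in place of `11 / 6 = 1.8333…`
and `82 / 45 = 1.8222…`:

* a finite set of integers that contains `a, a + d, a + 2 d` for every `d ∈ D` has at least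
  `|D| ^ (67 / 122)` elements; if `a ∈ S₀`, `a + d ∈ S₁` and `a + 2 d ∈ S₂` then
  `|D| ≤ (|S₀| |S₂|) ^ (46 / 67) |S₁| ^ (30 / 67)`;
* every set in `ℝ^n` that contains a three-term progression with every common difference in
  `[0,1]^n` has lower Minkowski dimension at least `67 n / 122`, in particular
  `f^M_n(3) ≥ 67 n / 122`; more generally the covering numbers at every scale, for an arbitrary set
  of common differences.

The proof (files `Pool.Agent.H545.Cert3b`, `AP3`) is an entropy argument in the framework of the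
starting files `K3h57`.  A random line `X + t D` is chosen, with `D` the difference.  Two lines
through a common point `X_0` are glued to a second such pair along both their points at height `2`
(a cycle of four lines which meet at the heights `0, 2, 0, 2`), and two such cycles are glued
(conditionally independent) over one line and the point of height `1` of the opposite line.  In this
configuration of seven lines `21` submodularity inequalities are combined with the weights found by
linear programming.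
-/

set_option autoImplicit false

open Filter Topology

namespace Pool.Agent.Results.MP_4b405e_nt.ThreeTermProgressions

/-- `B` contains a `k`-term progression with every common difference in `R`. -/
def HasProg {n : ℕ} (k : ℕ) (R B : Set (EuclideanSpace ℝ (Fin n))) : Prop :=
  ∀ r ∈ R, ∃ a : EuclideanSpace ℝ (Fin n), ∀ j : ℕ, j < k → a + (j : ℝ) • r ∈ B

/-- The unit cube `[0,1]^n`. -/
def cube (n : ℕ) : Set (EuclideanSpace ℝ (Fin n)) := {r | ∀ i, r i ∈ Set.Icc (0 : ℝ) 1}

/-- The least number of sets of diameter at most `δ` covering `B` (for bounded `B`). -/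
noncomputable def coverNum {n : ℕ} (B : Set (EuclideanSpace ℝ (Fin n))) (δ : ℝ) : ℕ :=
  sInf {N | ∃ U : Fin N → Set (EuclideanSpace ℝ (Fin n)),
    (∀ i, ∀ x ∈ U i, ∀ y ∈ U i, dist x y ≤ δ) ∧ B ⊆ ⋃ i, U i}

/-- Upper Minkowski dimension. -/
noncomputable def upperMinkowski {n : ℕ} (B : Set (EuclideanSpace ℝ (Fin n))) : EReal :=
  limsup (fun δ : ℝ => ((Real.log (coverNum B δ) / Real.log (1 / δ) : ℝ) : EReal)) (𝓝[>] 0)

/-- Lower Minkowski dimension. -/
noncomputable def lowerMinkowski {n : ℕ} (B : Set (EuclideanSpace ℝ (Fin n))) : EReal :=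
  liminf (fun δ : ℝ => ((Real.log (coverNum B δ) / Real.log (1 / δ) : ℝ) : EReal)) (𝓝[>] 0)

/-- `f^M_n(k)`: the infimum of the upper Minkowski dimensions of the bounded sets in `ℝ^n` that
contain a `k`-term progression with every common difference in `[0,1]^n` -/
noncomputable def fM (n k : ℕ) : EReal :=
  ⨅ (B : Set (EuclideanSpace ℝ (Fin n))) (_ : Bornology.IsBounded B) (_ : HasProg k (cube n) B),
    upperMinkowski B

theorem rpow_of {c x y : ℝ} (hc : 0 < c) (hx : 0 ≤ x) (hy : 0 ≤ y) (h : x ≤ y ^ c) :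
    x ^ (1 / c) ≤ y := by
  refine (Real.rpow_le_rpow hx h (by positivity)).trans ?_
  rw [← Real.rpow_mul hy, mul_one_div_cancel hc.ne', Real.rpow_one]

/-- The weighted inequality. -/
theorem weighted (S₀ S₁ S₂ D : Finset ℤ)
    (hD : ∀ d ∈ D, ∃ a : ℤ, a ∈ S₀ ∧ a + d ∈ S₁ ∧ a + 2 * d ∈ S₂) :
    (D.card : ℝ) ≤ ((S₀.card : ℝ) * (S₂.card : ℝ)) ^ (46 / 67 : ℝ) *
      (S₁.card : ℝ) ^ (30 / 67 : ℝ) := by
  classical
  rcases D.eq_empty_or_nonempty with h0 | hne
  · subst h0
    simp only [Finset.card_empty, Nat.cast_zero]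
    positivity
  have hex : ∀ d : ℤ, ∃ a : ℤ, d ∈ D → a ∈ S₀ ∧ a + d ∈ S₁ ∧ a + 2 * d ∈ S₂ := by
    intro d
    by_cases hd : d ∈ D
    · obtain ⟨a, ha⟩ := hD d hd
      exact ⟨a, fun _ => ha⟩
    · exact ⟨0, fun h => absurd h hd⟩
  choose a ha using hex
  set A : Finset (ℤ × ℤ) := D.image fun d => (a d + 2 * d, a d) with hAd
  have hA : A.Nonempty := hne.image _
  have key := Pool.Agent.H545.three_slopes A hA
  have e1 : (A.image fun z => z.1 - z.2).card = D.card := by
    rw [hAd, Finset.image_image]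
    refine Finset.card_image_of_injective _ fun x y h => ?_
    simp only [Function.comp_apply] at h
    linarith
  have c0 : 0 < S₀.card := by
    obtain ⟨d, hd⟩ := hne
    exact Finset.card_pos.2 ⟨_, (ha d hd).1⟩
  have c1 : 0 < S₁.card := by
    obtain ⟨d, hd⟩ := hne
    exact Finset.card_pos.2 ⟨_, (ha d hd).2.1⟩
  have c2 : 0 < S₂.card := by
    obtain ⟨d, hd⟩ := hne
    exact Finset.card_pos.2 ⟨_, (ha d hd).2.2⟩
  have l0 : (Pool.Agent.K3h57.sl 1 0 A).card ≤ S₀.card := by
    refine Finset.card_le_card fun x hx => ?_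
    simp only [Pool.Agent.K3h57.sl, hAd, Finset.image_image, Finset.mem_image,
      Function.comp_apply] at hx
    obtain ⟨d, hd, rfl⟩ := hx
    have := (ha d hd).1
    simpa using this
  have l2 : (Pool.Agent.K3h57.sl 1 1 A).card ≤ S₂.card := by
    refine Finset.card_le_card fun x hx => ?_
    simp only [Pool.Agent.K3h57.sl, hAd, Finset.image_image, Finset.mem_image,
      Function.comp_apply] at hx
    obtain ⟨d, hd, rfl⟩ := hx
    have := (ha d hd).2.2
    simpa using this
  have l1 : (Pool.Agent.K3h57.sl 2 1 A).card ≤ S₁.card := by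
    have : Pool.Agent.K3h57.sl 2 1 A ⊆ S₁.image fun s => 2 * s := by
      intro x hx
      simp only [Pool.Agent.K3h57.sl, hAd, Finset.image_image, Finset.mem_image,
        Function.comp_apply] at hx
      obtain ⟨d, hd, rfl⟩ := hx
      exact Finset.mem_image.2 ⟨a d + d, (ha d hd).2.1, by ring⟩
    exact (Finset.card_le_card this).trans Finset.card_image_le
  have lg : ∀ (F : Finset ℤ) (m : ℕ), F.card ≤ m → 0 < m → Real.log F.card ≤ Real.log m := by
    intro F m h hm
    rcases Nat.eq_zero_or_pos F.card with h' | h'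
    · rw [h', Nat.cast_zero, Real.log_zero]
      exact Real.log_nonneg (by exact_mod_cast hm)
    · exact Real.log_le_log (by exact_mod_cast h') (by exact_mod_cast h)
  have g0 := lg _ _ l0 c0
  have g1 := lg _ _ l1 c1
  have g2 := lg _ _ l2 c2
  rw [e1] at key
  have p0 : (0 : ℝ) < S₀.card := by exact_mod_cast c0
  have p1 : (0 : ℝ) < S₁.card := by exact_mod_cast c1
  have p2 : (0 : ℝ) < S₂.card := by exact_mod_cast c2
  have pD : (0 : ℝ) < D.card := by exact_mod_cast Finset.card_pos.2 hne
  rw [← Real.log_le_log_iff pD (by positivity), Real.log_mul (by positivity) (by positivity),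
    Real.log_rpow (by positivity), Real.log_rpow p1, Real.log_mul p0.ne' p2.ne']
  linarith

/-- **Theorem.** Progressions with three terms. -/
theorem result :
    -- a finite set of integers which contains a three-term progression with every common
    -- difference in `D` has at least `|D| ^ (67 / 122)` elements
    (∀ S D : Finset ℤ, (∀ d ∈ D, ∃ a : ℤ, a ∈ S ∧ a + d ∈ S ∧ a + 2 * d ∈ S) →
        (D.card : ℝ) ^ (67 / 122 : ℝ) ≤ (S.card : ℝ)) ∧
    -- the weighted form, with different sets of first, middle and last terms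
    (∀ S₀ S₁ S₂ D : Finset ℤ, (∀ d ∈ D, ∃ a : ℤ, a ∈ S₀ ∧ a + d ∈ S₁ ∧ a + 2 * d ∈ S₂) →
        (D.card : ℝ) ≤ ((S₀.card : ℝ) * (S₂.card : ℝ)) ^ (46 / 67 : ℝ) *
          (S₁.card : ℝ) ^ (30 / 67 : ℝ)) ∧
    -- `f^M_n(3) ≥ 67 n / 122`
    (∀ n : ℕ, (((n : ℝ) * (67 / 122) : ℝ) : EReal) ≤ fM n 3) ∧
    -- the same for the lower Minkowski dimension
    (∀ n : ℕ, ∀ B : Set (EuclideanSpace ℝ (Fin n)), Bornology.IsBounded B →
      HasProg 3 (cube n) B → (((n : ℝ) * (67 / 122) : ℝ) : EReal) ≤ lowerMinkowski B) ∧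
    -- covering numbers at every scale, for an arbitrary set `R` of common differences: `V ⊆ R` is
    -- finite and separated in the maximum norm, `U` is a finite covering of `B`
    ∀ n : ℕ, ∀ R B : Set (EuclideanSpace ℝ (Fin n)), HasProg 3 R B →
      ∀ δ : ℝ, 0 < δ → ∀ V : Finset (EuclideanSpace ℝ (Fin n)), (∀ v ∈ V, v ∈ R) →
        (∀ v ∈ V, ∀ w ∈ V, v ≠ w → ∃ i, δ ≤ |v i - w i|) →
        ∀ (ι : Type) [Fintype ι] (U : ι → Set (EuclideanSpace ℝ (Fin n))),
        (∀ i, ∀ x ∈ U i, ∀ y ∈ U i, dist x y ≤ δ) → B ⊆ ⋃ i, U i →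
        (V.card : ℝ) ^ (67 / 122 : ℝ) ≤ 9 ^ n * (Fintype.card ι : ℝ) := by
  classical
  have hc : (0 : ℝ) < 122 / 67 := by norm_num
  have e : (1 : ℝ) / (122 / 67) = 67 / 122 := by norm_num
  have e' : ∀ n : ℕ, (n : ℝ) * (67 / 122) = n / (122 / 67) := fun n => by ring
  refine ⟨?_, weighted, ?_, ?_, ?_⟩
  · intro S D hD
    have h := weighted S S S D hD
    rw [← e]
    refine rpow_of hc (Nat.cast_nonneg _) (Nat.cast_nonneg _) (h.trans (le_of_eq ?_))
    rcases Nat.eq_zero_or_pos S.card with h0 | h0
    · rw [h0]; norm_num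
    · have p : (0 : ℝ) < S.card := by exact_mod_cast h0
      rw [Real.mul_rpow p.le p.le, ← Real.rpow_add p, ← Real.rpow_add p]
      norm_num
  · intro n
    rw [e']
    exact (Pool.Agent.K3h53.AP.port hc Pool.Agent.H545.ap3).2.2.2 n 3 le_rfl
  · intro n B hB hP
    rw [e']
    exact (Pool.Agent.K3h53.AP.port hc Pool.Agent.H545.ap3).2.2.1 n B hB hP
  · intro n R B hP δ hδ V hV hs ι _ U hU hcov
    have h1 := (Pool.Agent.K3h53.AP.port hc Pool.Agent.H545.ap3).1 n R B hP δ hδ V hV hs ι U hU hcov
    have h2 := rpow_of hc (Nat.cast_nonneg _) (by positivity) h1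
    rw [e] at h2
    refine h2.trans (le_of_eq ?_)
    norm_num

end Pool.Agent.Results.MP_4b405e_nt.ThreeTermProgressions
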