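import Pool.Agent.H22.Dense
import Pool.Agent.H22.ParabAsym
import Pool.Agent.H22.EntropyLists
import Pool.Graph.R_pool_sql_team_seeded_63374d34.Results.MP_4b405e_nt.AssouadVersion

/-!
# Small sets with `k`-term progressions of every common difference

For every `s > log 4 / log 12 = 0.5578...` and every `n` there is a compact self-similar subset of
`ℝ^n` which contains a three-term arithmetic progression with every common difference
`r ∈ [0,1]^n` and is `(C, n s)`-regular from above; so its Minkowski, packing and Assouad dimensions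
are at most `n s`. In particular `f^M_n(3) ≤ n log 4 / log 12`.

Construction: pairs `(u, v)` of integer vectors for which `u`, `v`, `u + v` are determined by their
reductions modulo `2` (discrete Gaussian vectors and a random linear hash function); then the
difference `u - v` determines the pair. A second random linear map makes the set of the differences
dense in `ℤ/Q`, a few translates cover `ℤ/Q`, and the set is lifted to digits.

For `k = 4, 5, 6, 7` typical sequences of a pair `(X, Y)` of random integers take the place of the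
discrete Gaussian vectors: `f^M_n(k) ≤ n max_{j < k} H(X + j Y) / H(Y)`. For large `k` points of a
parabola modulo a product of primes give `f^M_n(k) ≤ n (1 - 1 / (24 log (14 log k)))` and
`f^M_n(k) ≤ n (1 - (log 2 - o(1)) / log log k)`.
-/

set_option autoImplicit false

namespace Pool.Agent.Results.MP_4b405e_nt.ThreeTermUpperBound

open Filter Topology

/-- The least number of sets of diameter at most `δ` covering `B` (for bounded `B`). -/
noncomputable def coverNum {n : ℕ} (B : Set (EuclideanSpace ℝ (Fin n))) (δ : ℝ) : ℕ :=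
  sInf {N | ∃ U : Fin N → Set (EuclideanSpace ℝ (Fin n)),
    (∀ i, ∀ x ∈ U i, ∀ y ∈ U i, dist x y ≤ δ) ∧ B ⊆ ⋃ i, U i}

/-- `B` contains a `k`-term progression with every common difference in `[0,1]^n`. -/
def HasProgressions {n : ℕ} (k : ℕ) (B : Set (EuclideanSpace ℝ (Fin n))) : Prop :=
  ∀ r : EuclideanSpace ℝ (Fin n), (∀ i, r i ∈ Set.Icc (0 : ℝ) 1) →
    ∃ a : EuclideanSpace ℝ (Fin n), ∀ j : ℕ, j < k → a + (j : ℝ) • r ∈ B

/-- Upper Minkowski dimension. -/
noncomputable def upperMinkowski {n : ℕ} (B : Set (EuclideanSpace ℝ (Fin n))) : EReal :=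
  limsup (fun δ : ℝ => ((Real.log (coverNum B δ) / Real.log (1 / δ) : ℝ) : EReal)) (𝓝[>] 0)

/-- `f^M_n(k)`, the infimum of the upper Minkowski dimensions of the bounded sets with the
progressions. -/
noncomputable def fM (n k : ℕ) : EReal :=
  ⨅ (B : Set (EuclideanSpace ℝ (Fin n))) (_ : Bornology.IsBounded B) (_ : HasProgressions k B),
    upperMinkowski B

/-- `B` is `(C, s)`-regular from above: the part of `B` in a ball of radius `ρ` is covered by
`C (ρ/δ)^s` sets of diameter at most `δ`, for all `0 < δ ≤ ρ`. -/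
def RegularAbove {n : ℕ} (B : Set (EuclideanSpace ℝ (Fin n))) (C s : ℝ) : Prop :=
  ∀ (x : EuclideanSpace ℝ (Fin n)) (δ ρ : ℝ), 0 < δ → δ ≤ ρ →
    (coverNum (B ∩ Metric.closedBall x ρ) δ : ℝ) ≤ C * (ρ / δ) ^ s

theorem fM_eq (n k : ℕ) : fM n k = AssouadVersion.fM n k := rfl

open Finset Pool.Agent.H22.RigidLifts Pool.Agent.N68.Corner

/-! ### digits -/

lemma exists_digits {n Q : ℕ} [hQ : Fact Q.Prime] (X : Finset (ZMod Q))
    (hX : ∀ h : ZMod Q, ∃ b : ZMod Q, b ∈ X ∧ b + h ∈ X ∧ b + (h + h) ∈ X) :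
    ∃ (A : (Fin n → ℤ) → Fin n → ℤ) (D : Finset (Fin n → ℤ)),
      AssouadVersion.Digits 3 Q A D ∧ D.card ≤ (3 * X.card) ^ n := by
  classical
  have hQ0 : (0 : ℤ) < Q := by exact_mod_cast hQ.out.pos
  set D1 : Finset ℤ := (Finset.Ico (0 : ℤ) (3 * Q)).filter (fun z => (z : ZMod Q) ∈ X) with hD1
  have hD1c : D1.card ≤ 3 * X.card := by
    have hsub : D1 ⊆ (Finset.range 3 ×ˢ X).image
        (fun z : ℕ × ZMod Q => (Q : ℤ) * (z.1 : ℤ) + ((z.2.val : ℕ) : ℤ)) := by
      intro z hz
      obtain ⟨h1, h2⟩ := mem_filter.1 hz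
      obtain ⟨h3, h4⟩ := Finset.mem_Ico.1 h1
      refine mem_image.2 ⟨((z / Q).toNat, (z : ZMod Q)), mem_product.2 ⟨?_, h2⟩, ?_⟩
      · have h5 : z / Q < 3 := Int.ediv_lt_of_lt_mul hQ0 h4
        have h6 : 0 ≤ z / Q := Int.ediv_nonneg h3 hQ0.le
        exact Finset.mem_range.2 (by omega)
      · have h6 : 0 ≤ z / Q := Int.ediv_nonneg h3 hQ0.le
        have h7 : (((z : ZMod Q)).val : ℤ) = z % Q := ZMod.val_intCast z
        simp only
        rw [h7, Int.toNat_of_nonneg h6]
        exact Int.mul_ediv_add_emod z Q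
    refine (card_le_card hsub).trans (card_image_le.trans ?_)
    rw [card_product, Finset.card_range]
  choose b hb0 hb1 hb2 using hX
  refine ⟨fun v i => ((b (v i : ZMod Q)).val : ℤ), Fintype.piFinset fun _ => D1, ?_, ?_⟩
  · intro v hv j hj
    rw [Fintype.mem_piFinset]
    intro i
    obtain ⟨h1, h2⟩ := hv i
    simp only [Pi.add_apply, Pi.smul_apply, smul_eq_mul]
    have h3 : ((b (v i : ZMod Q)).val : ℤ) < Q := by exact_mod_cast ZMod.val_lt _
    have h4 : (0 : ℤ) ≤ ((b (v i : ZMod Q)).val : ℤ) := Int.natCast_nonneg _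
    have hcast : ((((b (v i : ZMod Q)).val : ℤ) + (j : ℤ) * v i : ℤ) : ZMod Q) =
        b (v i : ZMod Q) + (j : ZMod Q) * (v i : ZMod Q) := by
      push_cast
      rw [ZMod.natCast_zmod_val]
    rw [hD1, mem_filter, hcast, Finset.mem_Ico]
    have hj3 : j = 0 ∨ j = 1 ∨ j = 2 := by omega
    rcases hj3 with rfl | rfl | rfl
    · refine ⟨⟨by push_cast; linarith, by push_cast; linarith⟩, ?_⟩
      have := hb0 (v i : ZMod Q)
      simpa using this
    · refine ⟨⟨by push_cast; linarith, by push_cast; linarith⟩, ?_⟩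
      have := hb1 (v i : ZMod Q)
      simpa using this
    · refine ⟨⟨by push_cast; linarith, by push_cast; linarith⟩, ?_⟩
      have := hb2 (v i : ZMod Q)
      rw [show ((2 : ℕ) : ZMod Q) * (v i : ZMod Q) = (v i : ZMod Q) + (v i : ZMod Q) by
        push_cast; ring]
      exact this
  · rw [Fintype.card_piFinset, prod_const, Finset.card_univ, Fintype.card_fin]
    exact Nat.pow_le_pow_left hD1c n

/-! ### the choice of the parameters -/

lemma log_twelve : Real.log 12 = 2 * Real.log (2 * Real.sqrt 3) := by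
  have h : (2 * Real.sqrt 3) ^ 2 = 12 := by
    rw [mul_pow, Real.sq_sqrt (by norm_num)]
    norm_num
  rw [← h, Real.log_pow]
  norm_num

lemma log_four : Real.log 4 = 2 * Real.log 2 := by
  rw [show (4 : ℝ) = 2 ^ 2 by norm_num, Real.log_pow]
  norm_num

/-- a base `b < 2 √3` with `b ^ s > 2` -/
lemma exists_base {s : ℝ} (hs : Real.log 4 / Real.log 12 < s) :
    ∃ b : ℝ, 1 < b ∧ b < 2 * Real.sqrt 3 ∧ 2 < b ^ s := by
  have h3 : (1 : ℝ) ≤ Real.sqrt 3 := Real.one_le_sqrt.2 (by norm_num)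
  have hlt : 0 < Real.log (2 * Real.sqrt 3) := Real.log_pos (by linarith)
  rw [log_four, log_twelve, mul_div_mul_left _ _ (by norm_num : (2 : ℝ) ≠ 0), div_lt_iff₀ hlt] at hs
  have h1 : 2 < (2 * Real.sqrt 3) ^ s := by
    rw [← Real.log_lt_log_iff (by norm_num) (by positivity), Real.log_rpow (by positivity)]
    exact hs
  have hcont : ContinuousAt (fun b : ℝ => b ^ s) (2 * Real.sqrt 3) :=
    Real.continuousAt_rpow_const _ _ (Or.inl (by positivity))
  have hev : ∀ᶠ b in 𝓝[<] (2 * Real.sqrt 3), 2 < b ^ s :=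
    (hcont.eventually (lt_mem_nhds h1)).filter_mono nhdsWithin_le_nhds
  have hev2 : ∀ᶠ b in 𝓝[<] (2 * Real.sqrt 3), 1 < b :=
    (lt_mem_nhds (show (1 : ℝ) < 2 * Real.sqrt 3 by linarith)).filter_mono nhdsWithin_le_nhds
  obtain ⟨b, hb1, hb2, hb3⟩ := (hev.and (hev2.and self_mem_nhdsWithin)).exists
  exact ⟨b, hb2, hb3, hb1⟩

/-- the number of pairs -/
lemma card_pairs_le {ι : Type*} [Fintype ι] [DecidableEq ι] (A : Finset ((ι → ℤ) × (ι → ℤ)))
    (hA : UniqueLifts 2 A) : A.card ≤ 4 ^ Fintype.card ι := by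
  classical
  have h1 := card_image_le_of_red A Prod.fst id hA.1
  have h2 := card_image_le_of_red A Prod.snd id hA.2.1
  have h3 : A ⊆ (A.image fun t => id (Prod.fst t)) ×ˢ (A.image fun t => id (Prod.snd t)) := by
    intro t ht
    exact mem_product.2 ⟨mem_image.2 ⟨t, ht, rfl⟩, mem_image.2 ⟨t, ht, rfl⟩⟩
  calc A.card ≤ _ := card_le_card h3
    _ = _ := card_product _ _
    _ ≤ 2 ^ Fintype.card ι * 2 ^ Fintype.card ι := Nat.mul_le_mul h1 h2
    _ = 4 ^ Fintype.card ι := by rw [← mul_pow]; norm_num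

/-- **The digits.** -/
theorem exists_digits_le (n : ℕ) {s : ℝ} (hs : Real.log 4 / Real.log 12 < s) :
    ∃ (N : ℕ) (A : (Fin n → ℤ) → Fin n → ℤ) (D : Finset (Fin n → ℤ)), 2 ≤ N ∧
      AssouadVersion.Digits 3 N A D ∧ Real.log D.card / Real.log N ≤ n * s := by
  classical
  obtain ⟨b, hb1, hb2, hb3⟩ := exists_base hs
  have hb0 : 0 < b := by linarith
  have hs0 : 0 < s := by
    refine lt_trans ?_ hs
    exact div_pos (Real.log_pos (by norm_num)) (Real.log_pos (by norm_num))
  obtain ⟨L, n0, hn0⟩ := Pool.Agent.H22.BddLifts.exists_lifts_bdd 2 b hb1.le (by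
    push_cast
    linarith)
  set ρ : ℝ := b ^ s / 2 with hρ
  have hρ1 : 1 < ρ := by rw [hρ]; linarith
  -- growth
  have hr : |1 / ρ| < 1 := by
    rw [abs_of_nonneg (by positivity), div_lt_one (by linarith)]
    exact hρ1
  have hlim := tendsto_pow_const_mul_const_pow_of_abs_lt_one 1 hr
  set C : ℝ := 27 * (16 * Real.log 4 + 1) with hC
  have hlog4 : 0 < Real.log 4 := Real.log_pos (by norm_num)
  have hC0 : 0 < C := by positivity
  have hev := hlim.eventually (gt_mem_nhds (show (0 : ℝ) < 1 / C by positivity))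
  have hlim2 := tendsto_pow_atTop_atTop_of_one_lt hb1
  obtain ⟨n1, hn1⟩ := eventually_atTop.1 (hev.and
    (hlim2.eventually (eventually_ge_atTop (2 * (L : ℝ) + 1))))
  set k := max (max n0 n1) 1 with hk
  have hk1 : 1 ≤ k := le_max_right _ _
  obtain ⟨A, hA, hAL, hAc⟩ := hn0 k ((le_max_left _ _).trans (le_max_left _ _))
  obtain ⟨h1, h2⟩ := hn1 (3 * k) (by
    have : n1 ≤ k := (le_max_right _ _).trans (le_max_left _ _)
    omega)
  have h3 : 2 * (L : ℝ) + 1 ≤ A.card := h2.trans hAc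
  have h4 : 2 * L + 1 ≤ A.card := by exact_mod_cast h3
  obtain ⟨Q, hQp, hQ1, hQ2, X, hXc, hX⟩ :=
    Pool.Agent.H22.Dense.exists_mod A hA hAL (by omega) (by omega)
  have hF : Fact Q.Prime := ⟨hQp⟩
  obtain ⟨A', D, hD, hDc⟩ := exists_digits (n := n) X hX
  refine ⟨Q, A', D, hQp.two_le, hD, ?_⟩
  have hcard : Fintype.card (Fin 3 × Fin k) = 3 * k := by simp
  have hQ0 : (0 : ℝ) < Q := by exact_mod_cast hQp.pos
  have hlogQ : 0 < Real.log Q := Real.log_pos (by exact_mod_cast hQp.one_lt)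
  have hkR : (1 : ℝ) ≤ ((3 * k : ℕ) : ℝ) := by exact_mod_cast (by omega : 1 ≤ 3 * k)
  -- `log Q` is at most linear in `k`
  have h5 : Real.log Q ≤ 2 * ((3 * k : ℕ) : ℝ) * Real.log 4 := by
    have e1 : (Q : ℝ) ≤ 4 * 4 ^ (3 * k) := by
      have := card_pairs_le A hA
      rw [hcard] at this
      exact_mod_cast hQ2.trans (Nat.mul_le_mul_left _ this)
    have e2 : Real.log Q ≤ Real.log (4 * 4 ^ (3 * k)) := Real.log_le_log hQ0 e1
    rw [Real.log_mul (by norm_num) (by positivity), Real.log_pow] at e2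
    nlinarith
  -- the size of the set modulo `Q`
  have h6 : (3 * X.card : ℝ) ≤ (Q : ℝ) ^ s := by
    have e1 : (3 * X.card : ℝ) ≤ C * ((3 * k : ℕ) : ℝ) * 2 ^ (3 * k) := by
      rw [hcard] at hXc
      have e2 : 8 * Real.log Q + 1 ≤ (16 * Real.log 4 + 1) * ((3 * k : ℕ) : ℝ) := by nlinarith
      have e3 : (0 : ℝ) < 2 ^ (3 * k) := by positivity
      calc (3 * X.card : ℝ) ≤ 3 * (9 * (8 * Real.log Q + 1) * 2 ^ (3 * k)) := by linarith
        _ = 27 * (8 * Real.log Q + 1) * 2 ^ (3 * k) := by ring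
        _ ≤ 27 * ((16 * Real.log 4 + 1) * ((3 * k : ℕ) : ℝ)) * 2 ^ (3 * k) := by
          apply mul_le_mul_of_nonneg_right _ e3.le
          linarith
        _ = _ := by rw [hC]; ring
    have e2 : C * ((3 * k : ℕ) : ℝ) ≤ ρ ^ (3 * k) := by
      have hp : 0 < ρ ^ (3 * k) := by positivity
      rw [pow_one, div_pow, one_pow, mul_one_div, div_lt_div_iff₀ hp hC0, one_mul] at h1
      linarith
    have e3 : ρ ^ (3 * k) * 2 ^ (3 * k) = (b ^ (3 * k)) ^ s := by
      rw [← mul_pow, hρ, div_mul_cancel₀ _ (by norm_num : (2 : ℝ) ≠ 0), ← Real.rpow_natCast,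
        ← Real.rpow_natCast, ← Real.rpow_mul hb0.le, ← Real.rpow_mul hb0.le, mul_comm]
    have e4 : b ^ (3 * k) ≤ (Q : ℝ) := by
      refine hAc.trans ?_
      exact_mod_cast (by omega : A.card ≤ Q)
    calc (3 * X.card : ℝ) ≤ C * ((3 * k : ℕ) : ℝ) * 2 ^ (3 * k) := e1
      _ ≤ ρ ^ (3 * k) * 2 ^ (3 * k) := mul_le_mul_of_nonneg_right e2 (by positivity)
      _ = (b ^ (3 * k)) ^ s := e3
      _ ≤ (Q : ℝ) ^ s := Real.rpow_le_rpow (by positivity) e4 hs0.le
  rw [div_le_iff₀ hlogQ]
  have hne := AssouadVersion.nonempty_of_digits (by norm_num) hQp.two_le hD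
  have hD0 : (0 : ℝ) < D.card := by exact_mod_cast card_pos.2 hne
  have h7 : (D.card : ℝ) ≤ ((Q : ℝ) ^ s) ^ n := by
    have : (D.card : ℝ) ≤ (3 * X.card : ℝ) ^ n := by exact_mod_cast hDc
    exact this.trans (pow_le_pow_left₀ (by positivity) h6 n)
  calc Real.log D.card ≤ Real.log (((Q : ℝ) ^ s) ^ n) := Real.log_le_log hD0 h7
    _ = n * s * Real.log Q := by
      rw [Real.log_pow, Real.log_rpow hQ0]
      ring

lemma numeric : Real.log 4 / Real.log 12 < 0.5579 := by
  have h12 : 0 < Real.log 12 := Real.log_pos (by norm_num)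
  rw [div_lt_iff₀ h12]
  have h2 : 95 * Real.log 4 < 53 * Real.log 12 := by
    have e1 : 95 * Real.log 4 = Real.log (4 ^ 95) := by
      rw [Real.log_pow]; norm_num
    have e2 : 53 * Real.log 12 = Real.log (12 ^ 53) := by
      rw [Real.log_pow]; norm_num
    rw [e1, e2]
    exact Real.log_lt_log (by positivity) (by norm_num)
  linarith

/-! ### the sets -/

lemma regular_mono {n : ℕ} {B : Set (EuclideanSpace ℝ (Fin n))} {C s t : ℝ}
    (h : RegularAbove B C s) (hst : s ≤ t) : RegularAbove B C t := by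
  have hC : 0 ≤ C := by
    have h1 := h 0 1 1 one_pos le_rfl
    rw [div_one, Real.one_rpow, mul_one] at h1
    exact (Nat.cast_nonneg _).trans h1
  intro x δ ρ hδ hρ
  refine (h x δ ρ hδ hρ).trans (mul_le_mul_of_nonneg_left ?_ hC)
  exact Real.rpow_le_rpow_of_exponent_le (by rwa [one_le_div hδ]) hst

/-- Digits of exponent `n s` for every `s > θ`. -/
def DigitBound (n k : ℕ) (θ : ℝ) : Prop :=
  ∀ s : ℝ, θ < s → ∃ (N : ℕ) (A : (Fin n → ℤ) → Fin n → ℤ) (D : Finset (Fin n → ℤ)), 2 ≤ N ∧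
    AssouadVersion.Digits k N A D ∧ Real.log D.card / Real.log N ≤ n * s

/-- `f^M_n(k) ≤ θ n`; and for every `s > θ` some compact subset of `ℝ^n` contains a `k`-term
progression with every common difference in `[0,1]^n` and is `(C, n s)`-regular from above for some
`C`. -/
def Upper (n k : ℕ) (θ : ℝ) : Prop :=
  fM n k ≤ ((n * θ : ℝ) : EReal) ∧
    ∀ s : ℝ, θ < s → ∃ K : Set (EuclideanSpace ℝ (Fin n)),
      IsCompact K ∧ HasProgressions k K ∧ ∃ C : ℝ, RegularAbove K C (n * s)

/-- The probability that `f` takes the value `f s`, if `s` has the probability `p s`. -/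
noncomputable def mass {r : ℕ} (p : Fin r → ℝ) (f : Fin r → ℤ) (s : Fin r) : ℝ :=
  ∑ s' ∈ univ.filter (fun s' => f s' = f s), p s'

/-- The entropy of `f`, if `s` has the probability `p s`. -/
noncomputable def entropy {r : ℕ} (p : Fin r → ℝ) (f : Fin r → ℤ) : ℝ :=
  -∑ s, p s * Real.log (mass p f s)

lemma upper_of_digits {n k : ℕ} (hk : 1 ≤ k) {θ : ℝ} (h : DigitBound n k θ) : Upper n k θ := by
  refine ⟨?_, ?_⟩
  · rw [← EReal.le_of_forall_lt_iff_le]
    intro t ht
    rw [EReal.coe_lt_coe_iff] at ht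
    set s := θ + (t - n * θ) / (n + 1) with hs
    have hn : (0 : ℝ) < n + 1 := by positivity
    have hs1 : θ < s := by
      rw [hs]
      have : 0 < (t - n * θ) / (n + 1) := div_pos (by linarith) hn
      linarith
    obtain ⟨N, A, D, hN, hD, hle⟩ := h s hs1
    have h1 : fM n k = AssouadVersion.fD n k := by
      rw [fM_eq]
      exact ((AssouadVersion.result.1 n k hk).2.2.2).symm
    rw [h1]
    unfold AssouadVersion.fD
    refine (iInf_le _ N).trans ((iInf_le _ D).trans ((iInf_le _ ⟨hN, A, hD⟩).trans ?_))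
    rw [EReal.coe_le_coe_iff]
    refine hle.trans ?_
    have h2 : (n : ℝ) * s = n * θ + n / (n + 1) * (t - n * θ) := by
      rw [hs]; ring
    have h3 : (n : ℝ) / (n + 1) ≤ 1 := by
      rw [div_le_one hn]
      linarith
    rw [h2]
    nlinarith
  · intro s hs
    obtain ⟨N, A, D, hN, hD, hle⟩ := h s hs
    obtain ⟨C, hC⟩ := (AssouadVersion.result.2.2.1 n k N A D hk hN hD).1
    have hC' : RegularAbove (AssouadVersion.digitSet N D) C
        (Real.log D.card / Real.log N) := hC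
    exact ⟨AssouadVersion.digitSet N D, AssouadVersion.compact n N D hN,
      AssouadVersion.progressions hk hN hD, C, regular_mono hC' hle⟩

lemma digits_three (n : ℕ) : DigitBound n 3 (Real.log 4 / Real.log 12) :=
  fun _ hs => exists_digits_le n hs

lemma digits_all (n : ℕ) {k : ℕ} (hk : 2 ≤ k) :
    DigitBound n k (1 - 1 / (24 * Real.log (14 * Real.log k))) := by
  intro s hs
  rcases Nat.lt_or_ge k 4 with h | h
  · have h1 := Pool.Agent.H22.ParabDigits.denom hk
    have h2 : 1 / (24 * Real.log (14 * Real.log k)) ≤ 1 / 50 :=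
      one_div_le_one_div_of_le (by norm_num) h1.le
    have h3 := numeric
    have h4 : Real.log 4 / Real.log 12 < s := by
      norm_num at h2 h3 hs ⊢
      linarith
    obtain ⟨N, A, D, hN, hD, hle⟩ := digits_three n s h4
    exact ⟨N, A, D, hN, fun v hv j hj => hD v hv j (by omega), hle⟩
  · obtain ⟨N, A, D, hN, hD, hle⟩ := Pool.Agent.H22.ParabDigits.main n h
    exact ⟨N, A, D, hN, hD, hle.trans (mul_le_mul_of_nonneg_left hs.le (Nat.cast_nonneg n))⟩

/-- **Theorem.** `Upper n k θ` means: `f^M_n(k) ≤ θ n`; more precisely, for every `s > θ` some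
compact subset of `ℝ^n` contains a `k`-term progression with every common difference in `[0,1]^n`
and is `(C, n s)`-regular from above for some `C`.
(1) `k = 3`: `θ = log 4 / log 12 < 0.5579`.
(2) `k = 4, 5, 6, 7`.
(3) All `k ≥ 2`: `θ = 1 - 1 / (24 log (14 log k))`. For every `ε > 0` and all large `k`:
`θ = 1 - (log 2 - ε) / log log k`.
(4) If `X`, `Y` are integer random variables on a finite probability space, `H(Y) > 0` and
`H(X + j Y) ≤ θ H(Y)` for `0 ≤ j < k`, then `Upper n k θ`. -/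
theorem result :
    ((∀ n : ℕ, Upper n 3 (Real.log 4 / Real.log 12)) ∧ Real.log 4 / Real.log 12 < 0.5579) ∧
    (∀ n : ℕ, Upper n 4 0.618 ∧ Upper n 5 0.665 ∧ Upper n 6 0.7 ∧ Upper n 7 0.72) ∧
    (∀ n k : ℕ, 2 ≤ k → 50 < 24 * Real.log (14 * Real.log k) ∧
      Upper n k (1 - 1 / (24 * Real.log (14 * Real.log k)))) ∧
    (∀ ε : ℝ, 0 < ε → ∃ k₀ : ℕ, ∀ k : ℕ, k₀ ≤ k → 0 < Real.log (Real.log k) ∧
      ∀ n : ℕ, Upper n k (1 - (Real.log 2 - ε) / Real.log (Real.log k))) ∧
    (∀ (r k n : ℕ) (p : Fin r → ℝ) (X Y : Fin r → ℤ) (θ : ℝ), 1 ≤ k → (∀ s, 0 < p s) →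
      ∑ s, p s = 1 → 0 < entropy p Y →
      (∀ j : ℕ, j < k → entropy p (fun s => X s + j * Y s) ≤ θ * entropy p Y) → Upper n k θ) := by
  refine ⟨⟨fun n => upper_of_digits (by norm_num) (digits_three n), numeric⟩, fun n =>
    ⟨upper_of_digits (by norm_num) fun s hs => Pool.Agent.H22.EntropyLists.four n hs,
      upper_of_digits (by norm_num) fun s hs => Pool.Agent.H22.EntropyLists.five n hs,
      upper_of_digits (by norm_num) fun s hs => Pool.Agent.H22.EntropyLists.six n hs,
      upper_of_digits (by norm_num) fun s hs => Pool.Agent.H22.EntropyLists.seven n hs⟩,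
    fun n k hk => ⟨Pool.Agent.H22.ParabDigits.denom hk,
      upper_of_digits (by omega) (digits_all n hk)⟩, fun ε hε => ?_, ?_⟩
  · obtain ⟨k₀, hk₀⟩ := Pool.Agent.H22.ParabAsym.main hε
    refine ⟨max k₀ 1, fun k hk => ⟨(hk₀ k ((le_max_left _ _).trans hk)).1, fun n => ?_⟩⟩
    apply upper_of_digits ((le_max_right _ _).trans hk)
    intro s hs
    obtain ⟨N, A, D, hN, hD, hle⟩ := (hk₀ k ((le_max_left _ _).trans hk)).2 n
    exact ⟨N, A, D, hN, hD, hle.trans (mul_le_mul_of_nonneg_left hs.le (Nat.cast_nonneg n))⟩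
  intro r k n p X Y θ hk hp hp1 hY h
  exact upper_of_digits hk fun s hs =>
    Pool.Agent.H22.EntropyProg.exists_digits hp hp1 X Y hk hY h n hs

end Pool.Agent.Results.MP_4b405e_nt.ThreeTermUpperBound
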